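import Pool.Agent.TH381.RM4.Defs
import Pool.Agent.TH412.RM3.Conv

/-!
CONV for the exponent `1 / m` (job RM4-CONV), after `TH412.RM3.conv`.
-/

set_option autoImplicit false

namespace Pool.Agent.TH329.RM4

open Pool.Agent.H584R2.Dg Pool.Agent.W614.Dg Pool.Agent.H539R2 Pool.Agent.TH381.RM
  Pool.Agent.TH381.RM2 Pool.Agent.TH381.RM3 Pool.Agent.TH412.RM3

/-- size of the numbers -/
def X4 (m c n : ℕ) : ℕ :=
  (48 * TH381.RM4.rt m n + 24) ^ (c * TH381.RM4.rt m n)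

theorem X4_succ {m : ℕ} (hm : 1 ≤ m) (c n : ℕ) : X4 m c (n + 1) ≤ X4 m c n ^ 4 := by
  unfold X4
  obtain ⟨B, hB⟩ : ∃ B, B = TH381.RM4.rt m n := ⟨_, rfl⟩
  obtain ⟨B', hB'⟩ : ∃ B', B' = TH381.RM4.rt m (n + 1) := ⟨_, rfl⟩
  have h1 : B' ≤ 2 * B := by
    have h3 := TH381.RM4.rt_succ hm n
    have h4 := TH381.RM4.rt_pos m n
    omega
  rw [← hB, ← hB']
  have h2 : 48 * B' + 24 ≤ (48 * B + 24) ^ 2 := by nlinarith
  calc (48 * B' + 24) ^ (c * B') ≤ ((48 * B + 24) ^ 2) ^ (c * B') := Nat.pow_le_pow_left h2 _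
    _ ≤ ((48 * B + 24) ^ 2) ^ (c * (2 * B)) :=
        Nat.pow_le_pow_right (by positivity) (Nat.mul_le_mul_left _ h1)
    _ = ((48 * B + 24) ^ (c * B)) ^ 4 := by
        rw [← pow_mul, ← pow_mul]
        congr 1
        ring

theorem le_X4 {m c : ℕ} (hm : 1 ≤ m) (hc : m ≤ c) (t : ℕ) : t ≤ X4 m c t := by
  unfold X4
  obtain ⟨B, hB⟩ : ∃ B, B = TH381.RM4.rt m t := ⟨_, rfl⟩
  have h0 := TH381.RM4.lt_rt hm t
  rw [← hB] at h0 ⊢
  calc t ≤ B ^ m := h0.le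
    _ ≤ (2 ^ B) ^ m := Nat.pow_le_pow_left Nat.lt_two_pow_self.le m
    _ = 2 ^ (m * B) := by rw [← pow_mul, mul_comm]
    _ ≤ (48 * B + 24) ^ (m * B) := Nat.pow_le_pow_left (by omega) _
    _ ≤ (48 * B + 24) ^ (c * B) :=
        Nat.pow_le_pow_right (by omega) (Nat.mul_le_mul_right _ hc)

theorem X4_ge {m c : ℕ} (hm : 1 ≤ m) (hc : m ≤ c) (t : ℕ) : 24 ≤ X4 m c t := by
  unfold X4
  have h1 : 1 ≤ c * TH381.RM4.rt m t := Nat.mul_pos (by omega) (TH381.RM4.rt_pos m t)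
  calc 24 ≤ (48 * TH381.RM4.rt m t + 24) ^ 1 := by rw [pow_one]; omega
    _ ≤ _ := Nat.pow_le_pow_right (by omega) h1

theorem root_facts {m : ℕ} (hm : 1 ≤ m) {n : ℕ} (hn : 1 ≤ n) :
    ∃ r : ℝ, r = (n : ℝ) ^ (1 / (m : ℝ)) ∧ 1 ≤ r ∧ r ^ m = n ∧ r ≤ n := by
  have hn' : (1 : ℝ) ≤ n := by exact_mod_cast hn
  have hm' : (1 : ℝ) ≤ m := by exact_mod_cast hm
  refine ⟨_, rfl, Real.one_le_rpow hn' (by positivity), ?_, ?_⟩
  · rw [← Real.rpow_natCast, ← Real.rpow_mul (by linarith), one_div,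
      inv_mul_cancel₀ (by linarith), Real.rpow_one]
  · calc (n : ℝ) ^ (1 / (m : ℝ)) ≤ (n : ℝ) ^ (1 : ℝ) :=
        Real.rpow_le_rpow_of_exponent_le hn' (by
          rw [div_le_one (by linarith)]
          exact hm')
      _ = n := Real.rpow_one _

theorem log_X4 (m c p : ℕ) : Real.log (X4 m c p : ℝ) =
    c * TH381.RM4.rt m p * Real.log (48 * (TH381.RM4.rt m p : ℝ) + 24) := by
  unfold X4
  push_cast
  rw [Real.log_pow]
  push_cast
  ring

/-! ### Real estimates -/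

theorem logX4_ge {m c : ℕ} (hm : 1 ≤ m) {A C : ℝ} (hA : 0 ≤ A) (hC : 0 ≤ C)
    (hc : m * (A * (C + 1)) ≤ c) (p : ℕ) :
    A * (C * (((p + 1 : ℕ) : ℝ) ^ (1 / (m : ℝ)) * (Real.log ((p + 1 : ℕ) : ℝ) + 1)) +
      Real.log ((p : ℝ) + 1) + 1) ≤ Real.log (X4 m c p) := by
  have hm' : (1 : ℝ) ≤ m := by exact_mod_cast hm
  obtain ⟨r, hr0, hr1, hr3, -⟩ := root_facts hm (n := p + 1) (by omega)
  rw [← hr0]
  obtain ⟨B, hB⟩ : ∃ B, B = TH381.RM4.rt m p := ⟨_, rfl⟩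
  have hB3 : r ^ m ≤ (B : ℝ) ^ m := by
    rw [hr3]
    have h1 : p + 1 ≤ B ^ m := by
      rw [hB]
      exact TH381.RM4.lt_rt hm p
    exact_mod_cast h1
  have hrB : r ≤ B := le_of_pow_le_pow_left₀ (by omega) (Nat.cast_nonneg B) hB3
  have h3 := log_X4 m c p
  rw [← hB] at h3
  have hlr : m * Real.log r = Real.log ((p : ℝ) + 1) := by
    have h4 : Real.log (r ^ m) = m * Real.log r := Real.log_pow _ _
    rw [← h4, hr3]
    push_cast
    rfl
  have hlr0 : 0 ≤ Real.log r := Real.log_nonneg hr1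
  have h5 : 1 + Real.log r ≤ Real.log (48 * (B : ℝ) + 24) := by
    have h6 : 1 + Real.log r = Real.log (Real.exp 1 * r) := by
      rw [Real.log_mul (Real.exp_pos 1).ne' (by linarith), Real.log_exp]
    rw [h6]
    apply Real.log_le_log (mul_pos (Real.exp_pos 1) (by linarith))
    have h7 : Real.exp 1 ≤ 48 := by
      have := Real.exp_one_lt_d9
      linarith
    nlinarith
  rw [h3]
  push_cast
  rw [← hlr]
  obtain ⟨g, hg⟩ : ∃ g, g = Real.log r := ⟨_, rfl⟩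
  rw [← hg] at hlr0 h5 ⊢
  obtain ⟨M, hM⟩ : ∃ M : ℝ, M = m := ⟨_, rfl⟩
  rw [← hM] at hm' hc ⊢
  have hMg : 0 ≤ M * g := mul_nonneg (by linarith) hlr0
  have h8 : A * (C * (r * (M * g + 1)) + M * g + 1) ≤ A * (C + 1) * (r * (M * g + 1)) := by
    have h9 : M * g + 1 ≤ r * (M * g + 1) := by nlinarith
    have h10 := mul_le_mul_of_nonneg_left h9 hA
    nlinarith
  have h11 : A * (C + 1) * (r * (M * g + 1)) ≤ (c : ℝ) * (r * (1 + g)) := by
    have h12 : r * (M * g + 1) ≤ M * (r * (1 + g)) := by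
      have : r * (M * g + 1) = M * (r * g) + r := by ring
      rw [this]
      nlinarith
    have h13 : 0 ≤ A * (C + 1) := mul_nonneg hA (by linarith)
    have h14 : 0 ≤ r * (1 + g) := mul_nonneg (by linarith) (by linarith)
    calc A * (C + 1) * (r * (M * g + 1)) ≤ A * (C + 1) * (M * (r * (1 + g))) :=
          mul_le_mul_of_nonneg_left h12 h13
      _ = (M * (A * (C + 1))) * (r * (1 + g)) := by ring
      _ ≤ _ := mul_le_mul_of_nonneg_right hc h14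
  have h15 : (c : ℝ) * (r * (1 + g)) ≤ c * B * Real.log (48 * (B : ℝ) + 24) := by
    rw [mul_assoc]
    apply mul_le_mul_of_nonneg_left _ (Nat.cast_nonneg c)
    exact mul_le_mul hrB h5 (by linarith) (Nat.cast_nonneg B)
  linarith

theorem rs4_ge (m : ℕ) {R : ℕ} (hR : 1 ≤ R) :
    1 ≤ (R : ℝ) ^ (1 / (m : ℝ)) * (Real.log R + 1) := by
  have hR' : (1 : ℝ) ≤ R := by exact_mod_cast hR
  have h1 : 1 ≤ (R : ℝ) ^ (1 / (m : ℝ)) := Real.one_le_rpow hR' (by positivity)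
  have h2 : 0 ≤ Real.log R := Real.log_nonneg hR'
  nlinarith

theorem space4 {m c : ℕ} (hm : 1 ≤ m) {n t : ℕ} (hn : 1 ≤ n) (ht : t ≤ n) :
    Real.log (X4 m c t : ℝ) ≤
      (2 * c * (Real.log 120 + 1)) * ((n : ℝ) ^ (1 / (m : ℝ)) * (Real.log n + 1)) := by
  obtain ⟨r, hr0, hr1, hr3, hrn⟩ := root_facts hm hn
  rw [← hr0, log_X4]
  have hn' : (1 : ℝ) ≤ n := by exact_mod_cast hn
  obtain ⟨B, hB⟩ : ∃ B, B = TH381.RM4.rt m t := ⟨_, rfl⟩
  have hB1 : 1 ≤ B := by rw [hB]; exact TH381.RM4.rt_pos m t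
  have h4 : (B : ℝ) ≤ 2 * r := by
    have h1 : ((B - 1 : ℕ) : ℝ) ^ m ≤ r ^ m := by
      rw [hr3]
      have := (TH381.RM4.rt_le hm t).trans ht
      rw [← hB] at this
      exact_mod_cast this
    have h2 : ((B - 1 : ℕ) : ℝ) ≤ r := le_of_pow_le_pow_left₀ (by omega) (by linarith) h1
    rw [Nat.cast_sub hB1] at h2
    push_cast at h2
    linarith
  rw [← hB]
  have hB0 : (0 : ℝ) ≤ B := Nat.cast_nonneg _
  have h5 : Real.log (48 * (B : ℝ) + 24) ≤ (Real.log 120 + 1) * (Real.log n + 1) := by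
    have h2 : 48 * (B : ℝ) + 24 ≤ 120 * n := by linarith
    have h3 : Real.log (48 * (B : ℝ) + 24) ≤ Real.log 120 + Real.log n := by
      rw [← Real.log_mul (by norm_num) (by positivity)]
      exact Real.log_le_log (by positivity) h2
    have h6 : 0 ≤ Real.log (120 : ℝ) := Real.log_nonneg (by norm_num)
    have h7 : 0 ≤ Real.log n := Real.log_nonneg hn'
    nlinarith [mul_nonneg h6 h7]
  have h6 : 0 ≤ Real.log (48 * (B : ℝ) + 24) := Real.log_nonneg (by linarith)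
  have hc0 : (0 : ℝ) ≤ c := Nat.cast_nonneg c
  calc c * (B : ℝ) * Real.log (48 * (B : ℝ) + 24) = c * (B * Real.log (48 * (B : ℝ) + 24)) := by
        ring
    _ ≤ c * ((2 * r) * ((Real.log 120 + 1) * (Real.log n + 1))) := by
        apply mul_le_mul_of_nonneg_left _ hc0
        exact mul_le_mul h4 h5 h6 (by linarith)
    _ = _ := by ring

/-- the constant in the space bound -/
noncomputable def S4 (c K nQ : ℕ) : ℝ :=
  17 * (Real.log ((K + nQ + 2 : ℕ) : ℝ) + 2 * c * (Real.log 120 + 1))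

theorem space5 {m c K nQ : ℕ} (hm : 1 ≤ m) (hc : m ≤ c) {R p : ℕ} (hR : 1 ≤ R) (hp : p ≤ R)
    {L b q : ℕ} (hL : L ≤ K * p) (hb : b ≤ (K + 1) * p) (hq : q < nQ) :
    Real.log ((z5 (X4 m c p) p L b q : ℕ) + 2) ≤
      S4 c K nQ * ((R : ℝ) ^ (1 / (m : ℝ)) * (Real.log R + 1)) := by
  have h1 := space4 (c := c) hm hR hp
  have h2 := rs4_ge m hR
  obtain ⟨X, hX⟩ : ∃ X, X = X4 m c p := ⟨_, rfl⟩
  have hpX : p ≤ X := by rw [hX]; exact le_X4 hm hc p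
  have hX24 : 24 ≤ X := by rw [hX]; exact X4_ge hm hc p
  rw [← hX] at h1 ⊢
  have hX' : (24 : ℝ) ≤ X := by exact_mod_cast hX24
  have h4 : z5 X p L b q + 2 ≤ ((K + nQ + 2) * X) ^ 17 := by
    have e1 : K * p ≤ K * X := Nat.mul_le_mul_left _ hpX
    have e2 : (K + 1) * p ≤ (K + 1) * X := Nat.mul_le_mul_left _ hpX
    have e3 : (K + nQ + 2) * X = K * X + nQ * X + 2 * X := by ring
    have e4 : (K + 1) * X = K * X + X := by ring
    have e5 : nQ ≤ nQ * X := Nat.le_mul_of_pos_right _ (by omega)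
    apply z5_le <;> rw [e3] <;> omega
  have h5 : Real.log ((z5 X p L b q : ℕ) + 2) ≤
      17 * (Real.log ((K + nQ + 2 : ℕ) : ℝ) + Real.log X) := by
    have e6 : (17 : ℝ) * (Real.log ((K + nQ + 2 : ℕ) : ℝ) + Real.log X) =
        Real.log ((((K + nQ + 2) * X) ^ 17 : ℕ) : ℝ) := by
      rw [Nat.cast_pow, Real.log_pow, Nat.cast_mul, Real.log_mul _ (by linarith)]
      · norm_num
      · have : 0 < K + nQ + 2 := by omega
        exact_mod_cast this.ne'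
    rw [e6]
    apply Real.log_le_log (by positivity)
    exact_mod_cast h4
  have h6 : 0 ≤ Real.log ((K + nQ + 2 : ℕ) : ℝ) := Real.log_natCast_nonneg _
  unfold S4
  obtain ⟨rs, hrs⟩ : ∃ rs, rs = (R : ℝ) ^ (1 / (m : ℝ)) * (Real.log R + 1) := ⟨_, rfl⟩
  rw [← hrs] at h1 h2 ⊢
  obtain ⟨D, hD⟩ : ∃ D : ℝ, D = 2 * c * (Real.log 120 + 1) := ⟨_, rfl⟩
  rw [← hD] at h1 ⊢
  obtain ⟨G, hG⟩ : ∃ G : ℝ, G = Real.log ((K + nQ + 2 : ℕ) : ℝ) := ⟨_, rfl⟩
  rw [← hG] at h5 h6 ⊢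
  nlinarith

/-! ### The step -/

/-- one step -/
def F4 (m c : ℕ) (sg : ℕ → ℕ → ℕ) (nx ol : ℕ → ℕ) (z : ℕ) : ℕ :=
  z5 (powT (px z ^ 4) (48 * TH381.RM4.rt m (pp z + 1) + 24) (c * TH381.RM4.rt m (pp z + 1)))
    (pp z + 1)
    (pL z + ol (Nat.pair (pq z) (sg (px z) (pp z))))
    (if pp z = pb z then pL z else pb z)
    (nx (Nat.pair (pq z) (sg (px z) (pp z))))

theorem LS_F4 (m c : ℕ) {sg : ℕ → ℕ → ℕ} {nx ol : ℕ → ℕ} (hs : LS (fun ρ => sg (ρ 0) (ρ 1)))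
    (hn : LS (fun ρ => nx (ρ 0))) (ho : LS (fun ρ => ol (ρ 0))) :
    LS (fun ρ => F4 m c sg nx ol (ρ 0)) := by
  have hx : LS (fun ρ => sg (px (ρ 0)) (pp (ρ 0))) := LS.comp2 hs LS_px LS_pp
  have hi : LS (fun ρ => Nat.pair (pq (ρ 0)) (sg (px (ρ 0)) (pp (ρ 0)))) := LS.pair LS_pq hx
  have h3 := TH381.RM4.LS_rt m LS_pp.succ
  exact LS_z5 (LS.powT (ZZ.LS.powc LS_px 4) (((LS.const 48).mul h3).add (LS.const 24))
      ((LS.const c).mul h3)) LS_pp.succ (LS_pL.add (LS.comp1 ho hi))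
    (LS.ite (LSP.eq LS_pp LS_pb) LS_pL LS_pb) (LS.comp1 hn hi)

/-! ### The generating process -/

section Gen

variable {S : Type} {τ : Dgsm S} {a : S} {w : ℕ → S}

/-- the coded configuration after `t` steps -/
def z4 (τ : Dgsm S) (a : S) (w : ℕ → S) (m c : ℕ) (cQ : τ.Q → ℕ) (t : ℕ) : ℕ :=
  z5 (X4 m c (t + 1)) (t + 1) (lenp τ w (t + 1)) (NN τ a (lvl (NN τ a) t)) (cQ (stp τ w (t + 1)))

theorem step4 {m c : ℕ} (hm : 1 ≤ m) {cS : S → ℕ} {cQ : τ.Q → ℕ} {sg : ℕ → ℕ → ℕ} {nx ol : ℕ → ℕ}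
    (hw : τ.IsLimit a w)
    (hsg : ∀ p, sg (X4 m c p) p = cS (w p))
    (hnx : ∀ q x, nx (Nat.pair (cQ q) (cS x)) = cQ (τ.next q x))
    (hol : ∀ q x, ol (Nat.pair (cQ q) (cS x)) = (τ.out q x).length) (t : ℕ) :
    F4 m c sg nx ol (z4 τ a w m c cQ t) = z4 τ a w m c cQ (t + 1) := by
  unfold F4
  have e1 : px (z4 τ a w m c cQ t) = X4 m c (t + 1) := px_z5 _ _ _ _ _
  have e2 : pp (z4 τ a w m c cQ t) = t + 1 := pp_z5 _ _ _ _ _
  have e3 : pL (z4 τ a w m c cQ t) = lenp τ w (t + 1) := pL_z5 _ _ _ _ _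
  have e4 : pb (z4 τ a w m c cQ t) = NN τ a (lvl (NN τ a) t) := pb_z5 _ _ _ _ _
  have e5 : pq (z4 τ a w m c cQ t) = cQ (stp τ w (t + 1)) := pq_z5 _ _ _ _ _
  rw [e1, e2, e3, e4, e5, hsg, hnx, hol, ← stp_succ, ← lenp_succ]
  have e6 : powT (X4 m c (t + 1) ^ 4) (48 * TH381.RM4.rt m (t + 1 + 1) + 24)
      (c * TH381.RM4.rt m (t + 1 + 1)) = X4 m c (t + 1 + 1) :=
    powT_eq _ _ _ (Nat.succ_pos _) (X4_succ hm c (t + 1))
  have e7 : (if t + 1 = NN τ a (lvl (NN τ a) t) then lenp τ w (t + 1)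
      else NN τ a (lvl (NN τ a) t)) = NN τ a (lvl (NN τ a) (t + 1)) := by
    simp only [lvl]
    by_cases h : t + 1 = NN τ a (lvl (NN τ a) t)
    · rw [if_pos h, if_pos h, ← lenp_NN hw, ← h]
    · rw [if_neg h, if_neg h]
  rw [e6, e7]
  rfl

theorem emit4 {nQ m c : ℕ} {cQ : τ.Q → ℕ} {dQ : ℕ → τ.Q} (hw : τ.IsLimit a w)
    (hcQ : ∀ q, cQ q < nQ) (hdQ : ∀ q, dQ (cQ q) = q) (t : ℕ) :
    dec dQ (LL nQ (z4 τ a w m c cQ t)) = if t + 1 = NN τ a (lvl (NN τ a) t) then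
      some (states τ a (lvl (NN τ a) t)) else none := by
  have e2 : pp (z4 τ a w m c cQ t) = t + 1 := pp_z5 _ _ _ _ _
  have e4 : pb (z4 τ a w m c cQ t) = NN τ a (lvl (NN τ a) t) := pb_z5 _ _ _ _ _
  have e5 : pq (z4 τ a w m c cQ t) = cQ (stp τ w (t + 1)) := pq_z5 _ _ _ _ _
  unfold LL
  rw [e2, e4, e5]
  by_cases h : t + 1 = NN τ a (lvl (NN τ a) t)
  · have h7 : stp τ w (t + 1) = states τ a (lvl (NN τ a) t) := by
      have := stp_NN hw (lvl (NN τ a) t)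
      rw [← h] at this
      exact this
    rw [if_pos h, if_pos h, min_eq_left (Nat.succ_le_of_lt (hcQ _))]
    show some (dQ (cQ (stp τ w (t + 1)))) = _
    rw [hdQ, h7]
  · rw [if_neg h, if_neg h]
    rfl

end Gen

theorem conv4 : Pool.Agent.TH381.RM4.SConv := by
  intro hmach e he S _ τ a w hne hlim hin
  obtain ⟨k, m, C, hm, hC⟩ := hin
  have hQ := τ.finQ
  have : Nonempty S := ⟨a⟩
  have : Nonempty τ.Q := ⟨τ.init⟩
  obtain ⟨nS, cS, dS, hcS, hdS⟩ := exists_coding S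
  obtain ⟨nQ, cQ, dQ, hcQ, hdQ⟩ := exists_coding τ.Q
  obtain ⟨K, hK⟩ := exists_bound τ
  obtain ⟨A, sg, hsg, -, hval⟩ := hmach S k m w cS nS hcS hm
  obtain ⟨c, hc1, hc⟩ : ∃ c : ℕ, e ≤ c ∧ e * ((A : ℝ) * (|C| + 1)) ≤ c := by
    obtain ⟨c, hc⟩ := exists_nat_ge (e * ((A : ℝ) * (|C| + 1)))
    refine ⟨c + e, by omega, ?_⟩
    push_cast
    have : (0 : ℝ) ≤ e := Nat.cast_nonneg e
    linarith
  have hsgv : ∀ p, sg (X4 e c p) p = cS (w p) := by
    intro p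
    refine hval (X4 e c p) p (|C| * (((p + 1 : ℕ) : ℝ) ^ (1 / (e : ℝ)) *
      (Real.log ((p + 1 : ℕ) : ℝ) + 1))) ?_ ?_ ?_
    · have := rs4_ge e (R := p + 1) (by omega)
      have := abs_nonneg C
      positivity
    · apply spaceLE_mono _ (hC (p + 1) (by omega))
      have h1 := rs4_ge e (R := p + 1) (by omega)
      exact mul_le_mul_of_nonneg_right (le_abs_self C) (by linarith)
    · exact logX4_ge he (Nat.cast_nonneg A) (abs_nonneg C) hc p
  obtain ⟨nx, hnx⟩ : ∃ nx, nx = tabf (fun i => cQ (τ.next (dQ (Nat.unpair i).1)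
    (dS (Nat.unpair i).2))) ((nQ + nS) ^ 2) := ⟨_, rfl⟩
  obtain ⟨ol, hol⟩ : ∃ ol, ol = tabf (fun i => (τ.out (dQ (Nat.unpair i).1)
    (dS (Nat.unpair i).2)).length) ((nQ + nS) ^ 2) := ⟨_, rfl⟩
  have hlt : ∀ q x, Nat.pair (cQ q) (cS x) < (nQ + nS) ^ 2 := by
    intro q x
    have h1 := hcQ q
    have h2 := hcS x
    have := pair_lt_sq (x := cQ q) (y := cS x) (Y := nQ + nS) (by omega) (by omega)
    omega
  have hnx' : ∀ q x, nx (Nat.pair (cQ q) (cS x)) = cQ (τ.next q x) := by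
    intro q x
    rw [hnx]
    unfold tabf
    rw [if_pos (hlt q x)]
    simp only [Nat.unpair_pair, hdQ, hdS]
  have hol' : ∀ q x, ol (Nat.pair (cQ q) (cS x)) = (τ.out q x).length := by
    intro q x
    rw [hol]
    unfold tabf
    rw [if_pos (hlt q x)]
    simp only [Nat.unpair_pair, hdQ, hdS]
  have hLSnx : LS (fun ρ => nx (ρ 0)) := by rw [hnx]; exact LS_tab _ _
  have hLSol : LS (fun ρ => ol (ρ 0)) := by rw [hol]; exact LS_tab _ _
  have hiter : ∀ t, (F4 e c sg nx ol)^[t] (z4 τ a w e c cQ 0) = z4 τ a w e c cQ t := by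
    intro t
    induction t with
    | zero => rfl
    | succ t ih =>
      rw [Function.iterate_succ_apply', ih]
      exact step4 he (cS := cS) hlim hsgv hnx' hol' t
  have hlist : ∀ T, (List.range T).filterMap
      (fun i => dec dQ (LL nQ ((F4 e c sg nx ol)^[i] (z4 τ a w e c cQ 0)))) =
      (List.range (lvl (NN τ a) T)).map (states τ a) := by
    intro T
    apply outs
    intro t
    rw [hiter]
    exact emit4 hlim hcQ hdQ t
  obtain ⟨k', Mc, C', hM, hs⟩ := TH751.RM.gen τ.Q (F4 e c sg nx ol) (LL nQ) nQ (dec dQ)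
    (z4 τ a w e c cQ 0) (states τ a) (fun n => S4 c K nQ * TH381.RM4.rowSpace e τ a n)
    (LS_F4 e c hsg hLSnx hLSol) (LS_LL nQ)
    (by
      intro z
      unfold LL
      split_ifs
      · exact min_le_right _ _
      · exact Nat.zero_le _)
    (by
      intro t
      rw [hlist]
      exact map_range_isPre (states τ a) _)
    (by
      intro n
      refine ⟨NN τ a n, ?_⟩
      rw [hlist, List.length_map, List.length_range]
      have h1 := (lvl_spec NN_zero (NN_mono hne hlim) (NN τ a n)).1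
      have h2 : NN τ a n < NN τ a (lvl (NN τ a) (NN τ a n)) := by omega
      exact ((NN_mono hne hlim).lt_iff_lt.1 h2).le)
    (by
      intro n hn t ht
      rw [hlist, List.length_map, List.length_range] at ht
      rw [hiter]
      have h1 := (lvl_spec NN_zero (NN_mono hne hlim) t).1
      have h2 : NN τ a (lvl (NN τ a) t) ≤ NN τ a (n - 1) :=
        (NN_mono hne hlim).monotone (by omega)
      exact space5 he hc1 (R := NN τ a (n - 1)) (by omega) (by omega) (lenp_le hK _)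
        (NN_lvl_le hK hne hlim t) (hcQ _))
  refine ⟨k', Mc, C' * S4 c K nQ, hM, ?_⟩
  intro n hn
  rw [mul_assoc]
  exact hs n hn

end Pool.Agent.TH329.RM4
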